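import Pool.Agent.U192.PT.Trans

/-!
# Abundance for a variety is equivalent to abundance for the images of its products

Let `(Y, Δ_Y)` be any log canonical pair over `ℂ`, `dim Y = r + 1 ≥ 1`, for instance any smooth
projective variety, with `Δ_Y = 0`. Let `X` be a projective variety of dimension `d`. Let
`f i : X ⇢ ℙ^{N i}`, `i < k`, be rational maps such that `X` is mapped
birationally into the product of the projective spaces, and let `H i` be the pull-back of a hyperplane
to a model of `X`. For instance `k = 1` and `X ⊆ ℙ^N`.

Let `V = X × Y ⇢ W` be a dominant rational map of finite degree to any variety `W`, such that the map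
`V ⇢ W × X` is injective on an open subset. The map `V ⇢ W` need not be compatible with the
projections, and it need not be a Galois cover. If its degree is a prime number then the condition
means only that `V ⇢ X` does not factor through `W`; if `V ⇢ W` is the quotient by a finite group `G` of
birational automorphisms of `X × Y`, then it means that no element of `G`, except for `1`, preserves
the projection to `X`. Let `W_i` be the image of `V` in `W × ℙ^{N 0} × ... × ℙ^{N (i - 1)}` and let `δ i`
be the degree of `W_{i + 1}` over `W_i`. So the product of all `δ i` is the degree of `V` over `W`.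

**Theorem.** Suppose that `K_X - 2 ∑ (δ i - 1) H i` is big: for some `m ≥ 1` there are
`m`-canonical forms on `X`, with at least the zeros `2 m ∑ (δ i - 1) H i`, whose ratios contain `d`
algebraically independent functions. For instance `X ⊆ ℙ^{d + 1}` is a smooth hypersurface of degree
more than `d + 2 δ 0`. Then

  `κ(W) = dim X + κ(Y)` and `ν(W) = dim X + ν(Y)`.

Nothing is assumed about `κ(Y)` and `ν(Y)`. So `κ(W) = ν(W)` if and only if `κ(Y) = ν(Y)`: abundance for
`Y` is equivalent to abundance for each one of these varieties `W`. (If `κ(Y) = - ∞` then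
`κ(W) = - ∞`, and if `ν(Y) = - ∞` then `ν(W) = - ∞`: this is part of
`MP_bc213e_ag.NonvanishingTransfer` of this team.) The formulas hold for `K_Y + Δ_Y` and `K_W + Δ` for all
effective `ℝ`-divisors `Δ` on `W` (given by their multiplicities `δ P ≥ 0` at all prime divisors `P` over
`W`, for instance `δ P = max (0, - a(P, W, Δ))`) such that over the generic point of `X` the product
`X × Δ_Y` is at most `f^* Δ` and at least the positive part `Δ_V` of the divisor `Δ' = f^* Δ - R` on
`V`, where `K_V + Δ' = f^* (K_W + Δ)` and `R` is the ramification divisor. If `Δ_V = X × Δ_Y` over the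
generic point of `X` then both conditions are satisfied, because `Δ_V ≤ f^* Δ`; both are void if
`Δ = 0` and `Δ_Y = 0`. Nothing is assumed about `Δ` at the prime divisors which are not mapped onto `X`.

So if abundance is true for `Y`, for instance if `dim Y ≤ 3`, or if `Y` is of general type, then the
abundance conjecture is true for all projective manifolds birational to such a `W`, and
`κ(W) = ν(W) = dim X + κ(Y)`, or `W` is uniruled; it is not necessary to assume that the canonical
bundle of `W` is nef or pseudo-effective. Conversely, a counterexample `Y` gives counterexamples `W`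
which are not products, in all larger dimensions.

Quasi-projective varieties. Let `Y°` be any quasi-projective variety,
and let `X × Y° → W°` be a proper dominant morphism of
finite degree (or only a rational map which is proper over the generic point of `X`), such that
`X × Y° → W° × X` is generically injective. Take `δ P = 1` if `P` has no centre on `W°`, and `δ P = 0`
otherwise. Then the theorem says that `κ̄(W°) = dim X + κ̄(Y°)` and `ν̄(W°) = dim X + ν̄(Y°)`, if
`κ̄(Y°) ≥ 0`. (The examples are not part of the Lean proof.)

Proof. The lower bounds are obtained by norms: if `α` is a section of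
`m (K_X - 2 ∑ (δ i - 1) H i) + A` and `β` a section of `m (K_Y + Δ_Y) + B`, then the norm of `α ⊠ β` from
the function field of `V` to the one of
`W`, multiplied by the `m`-th power of the discriminant of a basis of the function field of `V` over
the one of `W`, which consists of monomials in the coordinates of `X` (this is possible by
the injectivity), is a section of `m (deg f) (K_W + Δ) + C`, where `C` does not depend on `m`. The norms
of `N` linearly independent forms span a space of dimension at least `N`, and a vector field on `W`
which annihilates the ratios of these norms annihilates all ratios of the sections `α ⊠ β`. The upper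
bounds are obtained from the restriction of the pull-backs of sections of `m (K_W + Δ) + C` to the generic
fibre of `V → X`: their coefficients, with respect to a basis of the function
field of `X` over `ℂ`, are sections of `m (K_Y + Δ_Y) + B` (this uses Gauss extensions of the prime
divisors over `Y`).
-/

set_option autoImplicit false
set_option linter.overlappingInstances false

open FF Module Pool.Agent.W602.GT
open Pool.Agent.Y174 (PairKod PairNum)

namespace Pool.Agent.Results.MP_97d78d_ag.AbundanceTransfer

/-- The order of the poles along `P` of the functions in the finite set `Y`: the multiplicity along `P`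
of the pull-back of a hyperplane under the rational map with the coordinates `1` and `Y`. -/
noncomputable def poleOrder {U : Type} [Field U] [Algebra ℂ U] (Y : Finset U) (P : Place ℂ U) : ℕ :=
  Y.sup fun z => (-P.ord z).toNat

/-- The functions on `X` as functions on `V = X × Y`. -/
def onV {L : Type} [Field L] [Algebra ℂ L] {U : IntermediateField ℂ L} (Y : Finset U) : Finset L :=
  Y.map (Function.Embedding.subtype fun z => z ∈ U)

/-- The function field of the image `W_j` of `V` in the product of `W` and the first `j` projective
spaces. `K` and `L` are the function fields of `W` and `V`, and `X i` is the set of the affine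
coordinates of the `i`-th rational map. -/
def Img {L : Type} [Field L] [Algebra ℂ L] {U : IntermediateField ℂ L} (K : Type) [Field K]
    [Algebra K L] {k : ℕ} (X : Fin k → Finset U) (j : ℕ) : IntermediateField K L :=
  IntermediateField.adjoin K {z | ∃ i : Fin k, i.val < j ∧ z ∈ onV (X i)}

/-- The degree `δ i` of `W_{i + 1}` over `W_i`. -/
noncomputable def deg {L : Type} [Field L] [Algebra ℂ L] {U : IntermediateField ℂ L} (K : Type)
    [Field K] [Algebra K L] {k : ℕ} (X : Fin k → Finset U) (i : Fin k) : ℕ :=
  finrank (Img K X i) (IntermediateField.adjoin (Img K X i) (onV (X i) : Set L))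

/-- `θ` is a section of `m K_X - H`, where `U` is the function field of the variety `X`, of dimension
`d`, and `H` has the multiplicity `b P` at `P`: the order of the `m`-canonical form `θ` along each prime
divisor `P` over `X` is at least `b P`. -/
def IsSection {U : Type} [Field U] [Algebra ℂ U] (d m : ℕ) (b : Place ℂ U → ℤ)
    (θ : (Fin d → Derivation ℂ U U) → U) : Prop :=
  IsPluri m θ ∧ ∀ P : Place ℂ U, Divisorial d P → ∀ G : Fin d → Derivation ℂ U U,
    (∀ i, DerReg P (G i)) → θ G ≠ 0 → b P ≤ P.ord (θ G)

/-- `Q` lies over `P` with the ramification index `e`. -/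
def LiesOver {K L : Type} [Field K] [Field L] [Algebra ℂ K] [Algebra ℂ L] [Algebra K L]
    (Q : Place ℂ L) (P : Place ℂ K) (e : ℕ) : Prop :=
  0 < e ∧ ∀ f : K, Q.ord (algebraMap K L f) = e * P.ord f

/-- `Δ_V` is the positive part of the divisor `Δ'` with `K_V + Δ' = f^* (K_W + Δ)`. The multiplicity
of `Δ` at a prime divisor `P` over `W` is `δ P`. -/
def IsPullBack {K L : Type} [Field K] [Field L] [Algebra ℂ K] [Algebra ℂ L] [Algebra K L]
    (δ : Place ℂ K → ℝ) (δV : Place ℂ L → ℝ) : Prop :=
  ∀ (P : Place ℂ K) (Q : Place ℂ L) (e : ℕ), LiesOver Q P e → δV Q = max 0 (1 - e * (1 - δ P))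

/-- The divisor `Δ_V` on `V = X × Y`, of dimension `n`, is at most the product `X × Δ_Y` over the
generic point of `X`. `U` and `T` are the function fields of `X` and `Y`. Let `Q` be a prime divisor
over `V` which is mapped onto `X`. If it is mapped onto `Y`, too, then the multiplicity of `Δ_V` is at
most `0`, and if it lies over the prime divisor `P` over `Y` with the ramification index `e` then the
multiplicity is at most the one of the positive part of the pull-back, `max 0 (1 - e (1 - δ_Y P))`. -/
def IsProductBoundary {L : Type} [Field L] [Algebra ℂ L] (U T : IntermediateField ℂ L) (n : ℕ)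
    (δV : Place ℂ L → ℝ) (δY : Place ℂ T → ℝ) : Prop :=
  ∀ Q : Place ℂ L, Divisorial n Q → (∀ z ∈ U, Q.ord z = 0) →
    ((∀ z ∈ T, Q.ord z = 0) → δV Q ≤ 0) ∧
    ∀ (P : Place ℂ T) (e : ℕ), LiesOver Q P e → δV Q ≤ max 0 (1 - e * (1 - δY P))

/-- Over the generic point of `X`, the divisor `f^* Δ` on `V = X × Y`, of dimension `n`, is at least the
product `X × Δ_Y`: if the prime divisor `Q` over `V` is mapped onto `X` and lies over the prime divisors
`P` over `W` and `P'` over `Y`, with the ramification indices `e` and `e'`, then the multiplicity
`1 - e' (1 - δ_Y P')` of the product boundary is at most the multiplicity `e δ P` of `f^* Δ`. -/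
def BoundsProduct {K L : Type} [Field K] [Field L] [Algebra ℂ K] [Algebra ℂ L] [Algebra K L]
    (U T : IntermediateField ℂ L) (n : ℕ) (δ : Place ℂ K → ℝ) (δY : Place ℂ T → ℝ) : Prop :=
  ∀ (P : Place ℂ K) (Q : Place ℂ L) (P' : Place ℂ T) (e e' : ℕ), LiesOver Q P e →
    LiesOver Q P' e' → Divisorial n Q → (∀ z ∈ U, Q.ord z = 0) → 1 - e' * (1 - δY P') ≤ e * δ P

/-- The multiplicities of `Δ` at all prime divisors over the variety of dimension `n` are bounded by
those of a divisor, the divisor of the poles of finitely many functions. -/
def IsBounded {K : Type} [Field K] [Algebra ℂ K] (n : ℕ) (δ : Place ℂ K → ℝ) : Prop :=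
  ∃ S : Finset K, ∀ P : Place ℂ K, Divisorial n P → ∃ s ∈ S, s ≠ 0 ∧ δ P ≤ -P.ord s

/-- **Transfer of abundance.** Let `L` be the function field of the product
`V` of the varieties `X` and `Y` with the function fields `U` and `T`, of dimensions `d` and `r + 1`: it
is generated by `U` and `T` and has the transcendence degree `d + (r + 1)`. Let `Δ_Y` be a divisor with
multiplicities `0 ≤ δ_Y P ≤ 1` at the prime divisors over `Y`. Let `U` be generated by the finitely
many coordinates in the sets `X i`. Let `K ⊆ L`
be the function field of a variety `W`, the extension being finite, such that `L` is generated by `K`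
and `U` (i.e. the map `V ⇢ W × X` is generically injective). Let `Δ` be an effective divisor on `W`,
whose pull-back `f^* Δ` is at least, and for which the positive part `Δ_V` of `f^* Δ - R` is at most, the
product `X × Δ_Y` over the generic point of `X`. Suppose that there are
sections `θ 0, ..., θ d` of `m (K_X - 2 ∑ (δ i - 1) H i)`, `m ≥ 1`, whose ratios are algebraically
independent. Then, for all `b ≥ 0`, `κ(K_W + Δ) ≥ d + b` if and only if `κ(K_Y + Δ_Y) ≥ b`, and
`ν(K_W + Δ) ≤ d + b` if and only if `ν(K_Y + Δ_Y) ≤ b`. -/
theorem result {L : Type} [Field L] [Algebra ℂ L] (U T : IntermediateField ℂ L)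
    [Algebra.EssFiniteType ℂ U] [Algebra.EssFiniteType ℂ T] {d r m k : ℕ} (hUT : U ⊔ T = ⊤)
    (hU : Algebra.trdeg ℂ U = d) (hT : Algebra.trdeg ℂ T = (r + 1 : ℕ))
    (hL : Algebra.trdeg ℂ L = (d + (r + 1) : ℕ))
    (δY : Place ℂ T → ℝ) (hY0 : ∀ P, 0 ≤ δY P) (hY1 : ∀ P, Divisorial (r + 1) P → δY P ≤ 1)
    (X : Fin k → Finset U) (hX : IntermediateField.adjoin ℂ (⋃ i, (X i : Set U)) = ⊤)
    (K : Type) [Field K] [Algebra ℂ K] [Algebra K L] [IsScalarTower ℂ K L] [FiniteDimensional K L]
    (hinj : IntermediateField.adjoin K (U : Set L) = ⊤)
    (δ : Place ℂ K → ℝ) (hδ0 : ∀ P, 0 ≤ δ P) (hδ : IsBounded (d + (r + 1)) δ)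
    (δV : Place ℂ L → ℝ) (hδV : IsPullBack δ δV)
    (hle : IsProductBoundary U T (d + (r + 1)) δV δY)
    (hge : BoundsProduct U T (d + (r + 1)) δ δY)
    (hm : 1 ≤ m) (θ : Fin (d + 1) → (Fin d → Derivation ℂ U U) → U)
    (hθ : ∀ j, IsSection d m
      (fun P => ∑ i, 2 * m * ((deg K X i : ℤ) - 1) * poleOrder (X i) P) (θ j))
    (D : Fin d → Derivation ℂ U U) (hD : θ 0 D ≠ 0)
    (hind : AlgebraicIndependent ℂ fun j : Fin d => θ j.succ D / θ 0 D) (b : ℕ) :
    (PairKod ℂ K (d + (r + 1)) δ (d + b) ↔ PairKod ℂ T (r + 1) δY b) ∧
    (PairNum ℂ K (d + (r + 1)) δ (d + b) ↔ PairNum ℂ T (r + 1) δY b) := by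
  refine U192.PT.abu_transfer (K := K) (U := U) (T := T) hm hUT hU hT hL hinj X hX hδ0 hδ hδV hY0
    hY1 hle hge (α := θ) (fun j => ⟨(hθ j).1, fun P hP G hG => ?_⟩) hD hind b
  by_cases h0 : θ j G = 0
  · exact Or.inl h0
  · refine Or.inr ⟨1, Finset.mem_singleton_self _, one_ne_zero, ?_⟩
    rw [P.ord_one, add_zero]
    exact (hθ j).2 P hP G hG h0

end Pool.Agent.Results.MP_97d78d_ag.AbundanceTransfer
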