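import Pool.Agent.U192.PB.Main

/-!
# Abundance for the varieties dominated by a product with a variety of numerical dimension zero

Let `X` and `Y` be projective varieties over `ℂ`, `dim X = d`, `dim Y = r + 1 ≥ 1`, with
`κ(Y) = ν(Y) = 0`. For instance `Y` is an abelian variety, a Calabi-Yau or a hyperkähler manifold, or a
variety with `κ(Y) = 0` which has a good minimal model. Let `f i : X ⇢ ℙ^{N i}`, `i < k`, be rational
maps such that `X` is mapped birationally into the product of the projective spaces, and let `H i` be
the pull-back of a hyperplane (to a model of `X`). For instance `k = 1` and `X ⊆ ℙ^N`.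

Let `V = X × Y ⇢ W` be a dominant rational map of finite degree to any variety `W`. It need not be
compatible with the projections, and it need not be a Galois cover. Let `W_i` be the image of `V` in
`W × ℙ^{N 0} × ... × ℙ^{N (i - 1)}` and let `δ i` be the degree of `W_{i + 1}` over `W_i`. (So `δ 0` is
the number of different points of `f 0 (X)` below a general fibre of `V ⇢ W`, and the product of all
`δ i` is at most the degree of `V ⇢ W`.)

Suppose that `K_X - 2 ∑ (δ i - 1) H i` is big: for some `m ≥ 1` there are `m`-canonical forms on `X`,
with at least the zeros `2 m ∑ (δ i - 1) H i`, whose ratios contain `d` algebraically independent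
functions. For instance `X ⊆ ℙ^{d + 1}` is a smooth hypersurface of degree more than `d + 2 δ 0`. Then the
following are equivalent:

* `ν(W) ≠ -∞`, i.e. `K_W` is pseudo-effective;
* `κ(W) ≥ 0`;
* `κ(W) ≥ d`.

Moreover `ν(W) ≤ d` always. So `κ(W) = ν(W)` is `-∞` or `dim X`. In particular, for every projective
manifold `M` with nef canonical bundle which is dominated by `V` in this way, `κ(M) = ν(M) = dim X`, so
that `K_M` is semiample by a theorem of Kawamata. (The last remarks, Nakayama's theorem that `K_W` is
pseudo-effective if and only if `ν(W) ≠ -∞` in the sense of the growth of sections, and the examples are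
not part of the Lean proof.)

Proof. The main point is a theorem on base change: the generic fibre `Y_U` of `X × Y → X`, over the
function field `U` of `X`, has at most the numerical dimension of `Y`. Let `T` be the function field of
`Y`, so that the function field `L` of `V` is the quotient field of the ring `U ⊗ T`. Let `t` be a
transcendence basis of `T`. If `ω` is a section of `m K + A` on `Y_U` then the coefficient of
`ω` with respect to `(dt)^m`, multiplied by a common denominator of `A`, is regular at all places of
`L` over `U` at which the elements of `T` and the vector fields dual to `dt` are regular, and it follows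
that it belongs to the ring `U ⊗ T`: one computes in a basis of `T` over `ℂ(t)`, whose discriminant and
structure constants are algebraic over `ℂ(t)`, so that they are units or regular at these places. If
it is `∑ β i ⊗ μ i`, with linearly independent `β i`, then the forms `μ i (dt)^m` are sections of
`m K_Y + A'`, where `A'` only depends on `A`: each prime divisor over `Y` has a Gauss extension to `L`,
which is trivial on `U`, and for which the order of `∑ β i ⊗ μ i` is the minimum of the orders of the
`μ i`. So the sections of `m K + A` are contained in a vector space over `U` of bounded dimension.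

If `α` is an `m`-canonical form on `X` and `β` is one on `Y` then at a prime divisor `Q` over `V` which
lies with the multiplicity `c` over a prime divisor `P` over `X` the form `α ⊠ β` vanishes at least to
the order `m (c - 1) + c · ord_P α`. So these forms are sections of `m (K_V - R_g - 2 ∑ (δ i - 1) H i)`,
where `R_g` has the multiplicity `c - 1` at `Q`, and the theorem on images of fibre spaces
(`MP_c2a5fc_ag.FibreSpaceImages`), whose proof uses the norms of pluricanonical forms from `V` to `W`,
can be applied.
-/

set_option autoImplicit false
set_option linter.overlappingInstances false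

open FF Module Pool.Agent.W602.GT
open Pool.Agent.W619.TW (NumNeg NumLe)

namespace Pool.Agent.Results.MP_97d78d_ag.ImagesOfProducts

/-- The order of the poles along `P` of the functions in the finite set `Y`: the multiplicity along `P`
of the pull-back of a hyperplane under the rational map with the coordinates `1` and `Y`. -/
noncomputable def poleOrder {U : Type} [Field U] [Algebra ℂ U] (Y : Finset U) (P : Place ℂ U) : ℕ :=
  Y.sup fun z => (-P.ord z).toNat

/-- The functions on `X` as functions on `V = X × Y`. -/
def onV {L : Type} [Field L] [Algebra ℂ L] {U : IntermediateField ℂ L} (Y : Finset U) : Finset L :=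
  Y.map (Function.Embedding.subtype fun z => z ∈ U)

/-- The function field of the image `W_j` of `V` in the product of `W` and the first `j` projective
spaces. `K` and `L` are the function fields of `W` and `V`, and `X i` is the set of the affine
coordinates of the `i`-th rational map. -/
def Img {L : Type} [Field L] [Algebra ℂ L] {U : IntermediateField ℂ L} (K : Type) [Field K]
    [Algebra K L] {k : ℕ} (X : Fin k → Finset U) (j : ℕ) : IntermediateField K L :=
  IntermediateField.adjoin K {z | ∃ i : Fin k, i.val < j ∧ z ∈ onV (X i)}

/-- The degree `δ i` of `W_{i + 1}` over `W_i`. -/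
noncomputable def deg {L : Type} [Field L] [Algebra ℂ L] {U : IntermediateField ℂ L} (K : Type)
    [Field K] [Algebra K L] {k : ℕ} (X : Fin k → Finset U) (i : Fin k) : ℕ :=
  finrank (Img K X i) (IntermediateField.adjoin (Img K X i) (onV (X i) : Set L))

/-- `θ` is a section of `m K_X - H`, where `U` is the function field of the variety `X`, of dimension
`d`, and `H` has the multiplicity `b P` at `P`: the order of the `m`-canonical form `θ` along each prime
divisor `P` over `X` is at least `b P`. -/
def IsSection {U : Type} [Field U] [Algebra ℂ U] (d m : ℕ) (b : Place ℂ U → ℤ)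
    (θ : (Fin d → Derivation ℂ U U) → U) : Prop :=
  IsPluri m θ ∧ ∀ P : Place ℂ U, Divisorial d P → ∀ G : Fin d → Derivation ℂ U U,
    (∀ i, DerReg P (G i)) → θ G ≠ 0 → b P ≤ P.ord (θ G)

/-- **Abundance for images of products.** Let `L` be the function field of the product `V` of the
varieties `X` and `Y` with the function fields `U` and `T`, of dimensions `d` and `r + 1`: it is
generated by `U` and `T` and has the transcendence degree `d + (r + 1)`. Suppose that `ν(Y) ≤ 0` and
`κ(Y) ≥ 0`. Let `U` be generated by the finitely many coordinates in the sets `X i`. Let `K ⊆ L` be the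
function field of a variety `W`, the extension being finite. Suppose that there are sections
`θ 0, ..., θ d` of `m (K_X - 2 ∑ (δ i - 1) H i)` whose ratios are algebraically independent. Then
`ν(W) ≠ -∞` if and only if `κ(W) ≥ 0`, if and only if `κ(W) ≥ d`. Moreover, `ν(W) ≤ d`. -/
theorem result {L : Type} [Field L] [Algebra ℂ L] (U T : IntermediateField ℂ L)
    [Algebra.EssFiniteType ℂ U] [Algebra.EssFiniteType ℂ T] {d r m k : ℕ} (hUT : U ⊔ T = ⊤)
    (hU : Algebra.trdeg ℂ U = d) (hT : Algebra.trdeg ℂ T = (r + 1 : ℕ))
    (hL : Algebra.trdeg ℂ L = (d + (r + 1) : ℕ))
    (hν : NumLe ℂ T (r + 1) (fun _ => False) 0) (hκ : KodGe ℂ T (r + 1) (fun _ => False) 0)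
    (X : Fin k → Finset U) (hX : IntermediateField.adjoin ℂ (⋃ i, (X i : Set U)) = ⊤)
    (K : Type) [Field K] [Algebra ℂ K] [Algebra K L] [IsScalarTower ℂ K L] [FiniteDimensional K L]
    (hm : 1 ≤ m) (θ : Fin (d + 1) → (Fin d → Derivation ℂ U U) → U)
    (hθ : ∀ j, IsSection d m
      (fun P => ∑ i, 2 * m * ((deg K X i : ℤ) - 1) * poleOrder (X i) P) (θ j))
    (D : Fin d → Derivation ℂ U U) (hD : θ 0 D ≠ 0)
    (hind : AlgebraicIndependent ℂ fun j : Fin d => θ j.succ D / θ 0 D) :
    [¬ NumNeg ℂ K (d + (r + 1)) (fun _ => False), KodGe ℂ K (d + (r + 1)) (fun _ => False) 0,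
      KodGe ℂ K (d + (r + 1)) (fun _ => False) d].TFAE ∧
    NumLe ℂ K (d + (r + 1)) (fun _ => False) d :=
  U192.PB.abu_prod U T hm hUT hU hT hL hν hκ X hX (fun j => (hθ j).1) (fun j => (hθ j).2) hD hind

end Pool.Agent.Results.MP_97d78d_ag.ImagesOfProducts
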