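import Pool.Agent.U976.TBd.K2

/-!
# Abundance for Kummer covers of toric bundles over quotients of complex tori

Let `X = V / Γ` be the quotient of a complex torus of any dimension by any finite group; the torus need
not be algebraic, and the group may contain reflections (for instance `X` is a complex torus, a smooth
étale quotient of it, a product of these with projective lines `E / ±1` or other rational quotients).
Let `Y → X` be a toric bundle: all fibres are the same smooth complete toric variety, of any dimension,
and the twists `c i` are arbitrary line bundles on `X` (for instance `Y` is the projective bundle of a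
direct sum of line bundles). Let `F_j` be a section of the `m_j`-th power of the line bundle
`O_Y(e_j; A_j)` on `Y`, and let `Y'` be the Kummer cover of `Y` with the equations `y_j ^ m_j = F_j`. We
assume that `Y'` is smooth, or only that its general fibre over `X` is smooth: the divisors `F_j = 0` on
the general fibres of `Y → X` are smooth and have normal crossings (then `K_{Y'}` is the dualizing
sheaf). So the theorem holds for all compact Kähler manifolds `Y'` of this form, of any dimension and
any algebraic dimension. The fibres of `Y' → X` vary and may degenerate, and can be of any type: of
general type, with trivial canonical bundle, rationally connected or of intermediate type.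

The theorem: the canonical bundle of `Y'` is semiample if and only if it is nef, and if and only if it
is nef on the preimages of the fibres of `Y → X` and of the finitely many torus invariant sections
`X → Y`. If `V → X` is unramified in codimension one (`K_X` is torsion), it is semiample as soon as it
is nef on the preimage of a fibre of `Y → X`.

The proof. `K_{Y'}` is the pullback of `K_Y + ∑ (1 - 1 / m_j) D_j`, `D_j = div F_j`. First, at a general
point of a stratum of the toric variety the divisors which contain the stratum are given, by normal crossings, by
functions with a matrix of normal derivatives of maximal rank; by Hall's theorem there are different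
normal directions `φ(j)` such that `F_j` has a monomial which is linear in `x_φ(j)` and does not contain
the other normal coordinates, so that all toric divisors have nonnegative log discrepancy. Then, for
every effective torus invariant divisor `∑ β_i D_i` in the class of a multiple of `K_{Y'}`, the
difference is, up to a multiple, an adjoint line bundle `m (K_X + B)`, `B ≥ 0`, on `X` (library
`Q47.TB`); by abundance for pairs on torus quotients it is semiample if it is nef, and we get monomial
sections of the multiples of `K_{Y'}` without zeros at the given point. For the converse we take the
monomials in the sections on `Y'`, and multiply their powers with powers of the `F_j`.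

`IsTorusQuotient` and `LineBundle` are defined in `Pool.Agent.W594.SYZ.Defs2`; `IsChernForm` in
`Pool.Agent.W594.SYZ.TQDefs`; `IsRamification` in `Pool.Agent.TH735.AQ.MirDefs`; `IsSmoothFan`,
`LinEquiv` and `IsSection` in `Pool.Agent.Q47.TB.Defs`; `Nef` in `Pool.Agent.U976.TBd.Defs`;
`GenNormalCrossing` in `Pool.Agent.U976.TBd.NC2`; `IsCoverCanonical`, `canClass` and `CoverSemiample` in
`Pool.Agent.U976.TBd.K1`; `FibreNef` in `Pool.Agent.U976.TBd.K2`.
-/

set_option autoImplicit false

namespace Pool.Agent.Results.MP_97d78d_ag.KummerCovers

open Pool.Agent.W594.SYZ2 Pool.Agent.TH735.AQ Q47.TB Pool.Agent.U976.TBd MvPolynomial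

/-- Let `Y` be the toric bundle with the fan `u`, `S` and the twists `c i` over the torus quotient
`X = V / Γ`, let `F j` be a section of the `m j`-th power of `O_Y(e j; A j)`, such that the divisors
`F j = 0` on the general fibres are smooth and have normal crossings, and let `Y'` be the Kummer cover
`y_j ^ m_j = F_j` of `Y`. Let `p K_{Y'}` be the pullback of the line bundle `O_Y(D; L)`, `D = canClass e m p`, where `H` is
the Chern form of `L`.

(1) `p K_{Y'}` is semiample if and only if it is nef on the preimages of the fibres and of the invariant
sections of `Y → X`.
(2) If `V → X` is unramified in codimension one, it is semiample if it is nef on the fibres. -/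
theorem result {V : Type*} [NormedAddCommGroup V] [NormedSpace ℂ V] [FiniteDimensional ℂ V]
    (Γ : Subgroup (V ≃ᵃ[ℂ] V)) (hΓ : IsTorusQuotient Γ) (ρ : V → ℂ) (hρ : IsRamification Γ ρ)
    {ι : Type*} [Fintype ι] {n : ℕ} (u : ι → Fin n → ℤ) (S : Set (Set ι)) (hS : IsSmoothFan u S)
    (c : ι → LineBundle Γ) (Hc : ι → V → V → ℂ) (hc : ∀ i, IsChernForm (c i) (Hc i))
    {k : ℕ} (m : Fin k → ℕ) (hm : ∀ j, 1 ≤ m j) (e : Fin k → ι → ℤ) (A : Fin k → LineBundle Γ)
    (F : Fin k → V → MvPolynomial ι ℂ)
    (hF : ∀ j, IsSection u c (fun i => m j * e j i) (fun γ v => (A j).e γ v ^ m j) (F j))
    (hnc : GenNormalCrossing S F)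
    (p : ℕ) (L : LineBundle Γ) (hL : IsCoverCanonical c A m p ρ L)
    (H : V → V → ℂ) (hH : IsChernForm L H) :
    (CoverSemiample u S c e A m F (canClass e m p) L ↔ Nef u S Hc (canClass e m p) H) ∧
    ((∀ v, ρ v ≠ 0) → FibreNef u S (canClass e m p) →
      CoverSemiample u S c e A m F (canClass e m p) L) := by
  have h := kummer_semiample_iff hΓ hρ hS hc hm hF hnc hL hH
  exact ⟨h, fun h0 hn => h.2 (kummer_nef_of_fibre hΓ hρ h0 hS hc hm hF hnc hL hH hn)⟩

end Pool.Agent.Results.MP_97d78d_ag.KummerCovers
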