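import Pool.Agent.Y174.B7
import Pool.Agent.Y174.R6

/-!
# Abundance for varieties with multivalued 1-forms, relative to a pluricanonical tensor

Let `V` be a projective variety over `ℂ` of dimension `n = d + r`, with function field `K`. Let
`T = a (α 1 ∧ ... ∧ α d) ^ m`, `m ≥ 1`, be a nonzero regular decomposable section of the `m`-th tensor
power of `Ω ^ d`: the `α j` are rational 1-forms, linearly independent over `K`, and `a` is a rational
function. For instance `d = 0`, or `T` is the pull-back of a nonzero `m`-canonical form under a
dominant rational map `V ⇢ B` onto a variety `B` of dimension `d` with `κ(B) ≥ 0` (second part of the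
theorem). Let `ω i` be finitely many regular multivalued 1-forms on `V`, with values in the algebraic
closure of `K` (for instance the roots of a symmetric differential which is a product of 1-forms on a
cover), such that there is no rational vector field `D ≠ 0` with `α j (D) = 0` and `ω i (D) = 0` for
all `i` and `j`.

**Theorem.** There is a finite Galois cover `V'` of `V` with `r` regular 1-forms `η i`, such that these
and the pull-backs of the `α j` are linearly independent (`V' = V` if the values of the `ω i` on the
vector fields killed by the `α j` are in `K`), and `κ(V) ≥ 0`, `κ(V) = κ(V')` and `ν(V) ≤ ν(V')`.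
So abundance for `V'` implies abundance for `V`, and `V'` may be any of the covers which make the
`ω i` single-valued: the cover is almost never unramified, but it has the same Kodaira dimension.

If `d = 0` then `V'` is of maximal Albanese dimension. In general the fibres of the Albanese map of
`V'` have dimension at most `d`, and the pull-back of `T` restricts to a nonzero pluricanonical form on
the general fibre if it is of dimension `d`; so if `d ≤ 3` and `V` is a projective manifold with nef
canonical bundle, then `K_V` is semiample by theorems of Lai and Kawamata (this consequence is not part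
of the Lean proof).

Proof (`Pool/Agent/Y174`). Let `L` be generated by the values of the conjugates of the `ω i` on the
kernel of the `α j`. If `g ≠ 1` is in the inertia group of a prime divisor over `V'` then some
difference of a form and its conjugate by `g` is a nonzero relative form which vanishes there; the
product over all choices of the determinants of such systems of forms is an invariant pluricanonical
form `Θ` on `V`, regular along all prime divisors, with zeros along those over which `V'` is ramified.
Multiplication by powers of `Θ` makes the pluricanonical forms of `V'` descend, up to powers.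
-/

set_option autoImplicit false

open FF Pool.Agent.W619.PQ Pool.Agent.W619.TW Pool.Agent.W619.Y Pool.Agent.Y174

namespace Pool.Agent.Results.MP_97d78d_ag.MultivaluedForms

/-- The tensor `a (α 1 ∧ ... ∧ α d) ^ m` is regular on the variety of dimension `n` with function
field `K`: along each prime divisor `v` over the variety it takes the vector fields which are regular
along `v` to functions which are regular along `v`. -/
def TensorRegular {K : Type} [Field K] [Algebra ℂ K] (n m : ℕ) {d : ℕ}
    (α : Fin d → Derivation ℂ K K →ₗ[K] K) (a : K) : Prop :=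
  ∀ v : Place ℂ K, IsDivisorial v n → ∀ D : Fin d → Derivation ℂ K K,
    (∀ j f, v.Reg f → v.Reg (D j f)) → v.Reg (a * (Matrix.of fun i j => α i (D j)).det ^ m)

/-- Abundance for the variety of dimension `n` with function field `K`, in terms of the Kodaira
dimension and the numerical dimension (growth of the sections of `m K + A`): `ν ≤ κ`, that is,
if `κ ≤ h` then `ν ≤ h`, for all `h ≥ 0`. -/
def NumLeKod (K : Type) [Field K] [Algebra ℂ K] (n : ℕ) : Prop :=
  ∀ h : ℕ, ¬ KodTr ℂ K n (h + 1) → NumLe ℂ K n (fun _ => False) h

/-- `η` is a regular 1-form on the variety of dimension `n` with function field `L`. -/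
def IsRegForm {L : Type} [Field L] [Algebra ℂ L] (n : ℕ) (η : Derivation ℂ L L →ₗ[L] L) : Prop :=
  ∀ w : Place ℂ L, IsDivisorial w n → ∀ D : Derivation ℂ L L,
    (∀ f, w.Reg f → w.Reg (D f)) → w.Reg (η D)

/-- **Varieties with a decomposable pluri-`d`-form and complementary multivalued 1-forms.** -/
theorem result {K : Type} [Field K] [Algebra ℂ K] [Algebra.EssFiniteType ℂ K] {d r : ℕ}
    (hV : Algebra.trdeg ℂ K = (d + r : ℕ)) :
    -- forms relative to a tensor
    (∀ (m : ℕ) (α : Fin d → Derivation ℂ K K →ₗ[K] K) (a : K) (ι : Type)
        (ω : ι → Derivation ℂ K K →ₗ[K] AlgebraicClosure K), 1 ≤ m → LinearIndependent K α →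
        a ≠ 0 → TensorRegular (d + r) m α a → Finite ι → (∀ i, MultiReg (d + r) (ω i)) →
        (∀ D : Derivation ℂ K K, (∀ l, α l D = 0) → (∀ i, ω i D = 0) → D = 0) →
      ∃ L : IntermediateField K (AlgebraicClosure K), FiniteDimensional K L ∧ IsGalois K L ∧
        (∃ (α' : Fin d → (Derivation ℂ L L →ₗ[L] L)) (η : Fin r → (Derivation ℂ L L →ₗ[L] L)),
          (∀ l, IsPullForm (α l) (α' l)) ∧ LinearIndependent L (Fin.append α' η) ∧
          ∀ i, IsRegForm (d + r) (η i)) ∧
        KodTr ℂ K (d + r) 0 ∧ (∀ h, KodTr ℂ K (d + r) h ↔ KodTr ℂ L (d + r) h) ∧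
        (∀ h, NumLe ℂ L (d + r) (fun _ => False) h → NumLe ℂ K (d + r) (fun _ => False) h) ∧
        (NumLeKod L (d + r) → NumLeKod K (d + r))) ∧
    -- forms relative to a base of nonnegative Kodaira dimension, with an explicit cover
    (∀ (M : IntermediateField ℂ K) (L : Type) [Field L] [Algebra ℂ L] [Algebra K L]
        [IsScalarTower ℂ K L] [FiniteDimensional K L] [IsGalois K L] (ι : Type)
        (ω : ι → Derivation ℂ K K →ₗ[K] L), Algebra.EssFiniteType ℂ M →
        Algebra.trdeg ℂ M = d → KodTr ℂ M d 0 → Finite ι →
        (∀ (i : ι) (v : Place ℂ K) (w : Place ℂ L) (e : ℕ), IsDivisorial v (d + r) →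
          LiesOn w v e → ∀ D : Derivation ℂ K K, (∀ f, v.Reg f → v.Reg (D f)) →
            w.Reg (ω i D)) →
        (∀ D : Derivation ℂ K K, (∀ y : M, D y = 0) → (∀ i, ω i D = 0) → D = 0) →
        IntermediateField.adjoin K {z | ∃ (g : L ≃ₐ[K] L) (i : ι) (D : Derivation ℂ K K),
          (∀ y : M, D y = 0) ∧ g (ω i D) = z} = ⊤ →
      (∃ η : Fin r → (Derivation ℂ L L →ₗ[L] L), (∀ i, IsRegForm (d + r) (η i)) ∧
        ∀ D : Derivation ℂ L L, (∀ y : M, D (algebraMap K L y) = 0) → (∀ i, η i D = 0) → D = 0) ∧
        KodTr ℂ K (d + r) 0 ∧ (∀ h, KodTr ℂ K (d + r) h ↔ KodTr ℂ L (d + r) h) ∧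
        (∀ h, NumLe ℂ L (d + r) (fun _ => False) h → NumLe ℂ K (d + r) (fun _ => False) h) ∧
        (NumLeKod L (d + r) → NumLeKod K (d + r))) := by
  refine ⟨fun m α a ι ω hm hα ha hT _ hreg hker => ?_,
    fun M L _ _ _ _ _ _ ι ω hessM hM hMk _ hreg hker hgen => ?_⟩
  · obtain ⟨L, h1, h2, ⟨α', η, h3, h4, h5⟩, h6, h7, h8⟩ :=
      main_A0 ‹Algebra.EssFiniteType ℂ K› hV hm α hα a ha hT ω hreg hker
    exact ⟨L, h1, h2, ⟨α', η, h3, h4, fun i w hw D hD => h5 i w hw D hD⟩, h6, h7, h8,
      fun hL h hk => h8 h (hL h fun hc => hk ((h7 _).2 hc))⟩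
  · obtain ⟨⟨η, h3, h4⟩, h6, h7, h8⟩ :=
      main_rel ‹Algebra.EssFiniteType ℂ K› hV M hessM hM hMk ω
        (fun i v w e hv hw D hD => hreg i v w e hv hw D hD) hker hgen
    exact ⟨⟨η, fun i w hw D hD => h3 i w hw D hD, h4⟩, h6, h7, h8,
      fun hL h hk => h8 h (hL h fun hc => hk ((h7 _).2 hc))⟩

end Pool.Agent.Results.MP_97d78d_ag.MultivaluedForms
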